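import Pool.Agent.Nu3.Final

/-!
MP_82f05f_nt, Q1 (answered in the affirmative).

If the number of partitions of `A n + B` with exactly three distinct part sizes is even for every
`n`, then the number of partitions of `A n + B` with exactly two distinct part sizes is divisible
by four for every `n`.
-/

namespace Pool.Agent.Results.MP_82f05f_nt.Nu3EvenNu2FourQ1

/-- For all integers `A ≥ 1`, `B ≥ 0`: if `ν₃(An+B)` is even for all `n ≥ 0`, then
`4 ∣ ν₂(An+B)` for all `n ≥ 0`.  Here `ν_k(N)` is the number of partitions of `N` whose multiset
of parts has exactly `k` distinct elements. -/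
theorem result (A B : ℕ) (hA : 1 ≤ A)
    (h : ∀ n : ℕ, 2 ∣ (Finset.univ.filter
      (fun p : (A * n + B).Partition => p.parts.toFinset.card = 3)).card) :
    ∀ n : ℕ, 4 ∣ (Finset.univ.filter
      (fun p : (A * n + B).Partition => p.parts.toFinset.card = 2)).card :=
  fun n => Pool.Agent.Nu3.final A B hA h n

end Pool.Agent.Results.MP_82f05f_nt.Nu3EvenNu2FourQ1
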